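import Pool.Agent.Helper377_AG.Final

/-!
A noetherian Hopf algebra over a field is Artin-Schelter Gorenstein of dimension `n` if and only
if the first nonzero group among `Ext^i_H(k, H)` (left modules) is in degree `n` and contains a
nonzero finite-dimensional right `H`-submodule.  One side suffices.
-/

set_option autoImplicit false

open CategoryTheory

namespace Pool.Agent.Results.MP_112773_al.Criterion

open Pool.Agent.Helper377_AG Pool.Agent.Helper202_BG

section defs
variable (k H : Type) [Field k] [Ring H] [HopfAlgebra k H]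

/-- The trivial left module `k = H / ker ε`: `H` acts through the counit. -/
noncomputable def trivL : ModuleCat.{0} H :=
  (ModuleCat.restrictScalars (Bialgebra.counitAlgHom k H).toRingHom).obj (ModuleCat.of k k)

/-- The counit as a ring homomorphism on the opposite ring. -/
noncomputable def counitOp : Hᵐᵒᵖ →+* k :=
  (Bialgebra.counitAlgHom k H).toRingHom.fromOpposite fun _ _ => mul_comm _ _

/-- The trivial right module `k`, as a left module over the opposite ring. -/
noncomputable def trivR : ModuleCat.{0} Hᵐᵒᵖ :=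
  (ModuleCat.restrictScalars (counitOp k H)).obj (ModuleCat.of k k)

variable {H} in
/-- The conditions (AS1) and (AS2) with the number `d`, for a trivial module `T` and a regular
module `R`: the injective dimension of `R` is `d`, `dim_k Ext^d(T, R) = 1`, and
`Ext^i(T, R) = 0` for all `i ≠ d`. -/
def IsAS {A : Type} [Ring A] [Algebra k A] (T R : ModuleCat.{0} A) (d : ℕ) : Prop :=
  injectiveDimension R = d ∧ Module.finrank k (Abelian.Ext.{0} T R d) = 1 ∧
    ∀ i : ℕ, i ≠ d → Subsingleton (Abelian.Ext.{0} T R i)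

variable {H} in
/-- `Ext^i(T, R) = 0` for `i < n`, and `Ext^n(T, R)` has a nonzero finite-dimensional subspace
which is stable under all endomorphisms of `R`.  (For `R = H` the regular left module the
endomorphisms of `R` are the right multiplications, so this is a nonzero finite-dimensional right
`H`-submodule of `Ext^n_H(k, H)`; similarly on the other side.) -/
def FirstExt {A : Type} [Ring A] [Algebra k A] (T R : ModuleCat.{0} A) (n : ℕ) : Prop :=
  (∀ i : ℕ, i < n → Subsingleton (Abelian.Ext.{0} T R i)) ∧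
    ∃ U : Submodule k (Abelian.Ext.{0} T R n), U ≠ ⊥ ∧ FiniteDimensional k U ∧
      ∀ (g : R ⟶ R) (ξ : Abelian.Ext.{0} T R n), ξ ∈ U →
        ξ.comp (Abelian.Ext.mk₀ g) (add_zero n) ∈ U

/-- `H` is Artin-Schelter Gorenstein: (AS1), (AS2) and (AS3). -/
def IsASGorenstein : Prop :=
  (∃ d, IsAS k (trivL k H) (ModuleCat.of H H) d) ∧
    ∃ d, IsAS k (trivR k H) (ModuleCat.of Hᵐᵒᵖ H) d

end defs

section transport
variable (k H : Type) [Field k] [Ring H] [HopfAlgebra k H]

/-- the anti-isomorphism with the opposite ring -/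
def opAnti (H : Type) [Ring H] : Anti H Hᵐᵒᵖ where
  f := MulOpposite.opAddEquiv
  mul _ _ := rfl

/-- the regular right module -/
def regIso : ModuleCat.of Hᵐᵒᵖ Hᵐᵒᵖ ≅ ModuleCat.of Hᵐᵒᵖ H :=
  LinearEquiv.toModuleIso
    { toFun := MulOpposite.unop
      invFun := MulOpposite.op
      map_add' := fun _ _ => rfl
      map_smul' := fun _ _ => rfl
      left_inv := fun _ => rfl
      right_inv := fun _ => rfl }

theorem main (hA : IsNoetherianRing H) (hB : IsNoetherianRing Hᵐᵒᵖ) (n : ℕ) :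
    List.TFAE [
      IsAS k (trivL k H) (ModuleCat.of H H) n ∧ IsAS k (trivR k H) (ModuleCat.of Hᵐᵒᵖ H) n,
      IsAS k (trivL k H) (ModuleCat.of H H) n,
      IsAS k (trivR k H) (ModuleCat.of Hᵐᵒᵖ H) n,
      FirstExt k (trivL k H) (ModuleCat.of H H) n,
      FirstExt k (trivR k H) (ModuleCat.of Hᵐᵒᵖ H) n] := by
  have h := @tfae_pair k H Hᵐᵒᵖ _ _ _ _ (opCop k H) (opAnti H) (fun _ _ => rfl) hA hB n
  have e : @TrO k Hᵐᵒᵖ _ _ (opCop k H) ≅ trivR k H := Iso.refl _
  have eR : ModuleCat.of Hᵐᵒᵖ Hᵐᵒᵖ ≅ ModuleCat.of Hᵐᵒᵖ H := regIso H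
  have e' : TrO k H ≅ trivL k H := Iso.refl _
  have h2 : ASG k (TrO k H) (ModuleCat.of H H) n ↔ IsAS k (trivL k H) (ModuleCat.of H H) n :=
    ⟨fun h => ASG.iso e' (Iso.refl _) h, fun h => ASG.iso e'.symm (Iso.refl _) h⟩
  have h3 : ASG k (@TrO k Hᵐᵒᵖ _ _ (opCop k H)) (ModuleCat.of Hᵐᵒᵖ Hᵐᵒᵖ) n ↔
      IsAS k (trivR k H) (ModuleCat.of Hᵐᵒᵖ H) n :=
    ⟨fun h => ASG.iso e eR h, fun h => ASG.iso e.symm eR.symm h⟩
  have h4 : Crit k (TrO k H) (ModuleCat.of H H) n ↔ FirstExt k (trivL k H) (ModuleCat.of H H) n :=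
    ⟨fun h => Crit.iso e' (Iso.refl _) h, fun h => Crit.iso e'.symm (Iso.refl _) h⟩
  have h5 : Crit k (@TrO k Hᵐᵒᵖ _ _ (opCop k H)) (ModuleCat.of Hᵐᵒᵖ Hᵐᵒᵖ) n ↔
      FirstExt k (trivR k H) (ModuleCat.of Hᵐᵒᵖ H) n :=
    ⟨fun h => Crit.iso e eR h, fun h => Crit.iso e.symm eR.symm h⟩
  rw [h2, h3, h4, h5] at h
  exact h

/-- For a left and right noetherian Hopf algebra `H` over a field `k` and a natural number `n`,
being Artin-Schelter Gorenstein of injective dimension `n` is equivalent to (AS1) and (AS2) with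
`d = n` on one side only, and to: `Ext^i_H(k, H) = 0` for `i < n` and `Ext^n_H(k, H)` contains a
nonzero finite-dimensional `H`-submodule, on one side only. -/
theorem result (k : Type) [Field k] (H : Type) [Ring H] [HopfAlgebra k H]
    [IsNoetherianRing H] [IsNoetherianRing Hᵐᵒᵖ] (n : ℕ) :
    List.TFAE [
      IsASGorenstein k H ∧ injectiveDimension (ModuleCat.of H H) = n,
      IsAS k (trivL k H) (ModuleCat.of H H) n ∧ IsAS k (trivR k H) (ModuleCat.of Hᵐᵒᵖ H) n,
      IsAS k (trivL k H) (ModuleCat.of H H) n,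
      IsAS k (trivR k H) (ModuleCat.of Hᵐᵒᵖ H) n,
      FirstExt k (trivL k H) (ModuleCat.of H H) n,
      FirstExt k (trivR k H) (ModuleCat.of Hᵐᵒᵖ H) n] := by
  have h := main k H inferInstance inferInstance n
  rw [List.tfae_cons_cons]
  refine ⟨⟨?_, fun h1 => ⟨⟨⟨n, h1.1⟩, ⟨n, h1.2⟩⟩, h1.1.1⟩⟩, h⟩
  rintro ⟨⟨⟨d, hd⟩, -⟩, hn⟩
  have hdn : d = n := by
    have := hd.1.symm.trans hn
    exact_mod_cast this
  subst hdn
  exact (h.out 1 0).1 hd

end transport

end Pool.Agent.Results.MP_112773_al.Criterion
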