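import Pool.Agent.Helper377_G1.Aus
import Pool.Agent.Results.MP_112773_al.Criterion

/-!
A noetherian Hopf algebra `H` whose lowest nonzero groups `Ext^n_H(k, H)` (on both sides) have only
submodules of grade at least `n` has injective dimension `n` on both sides, `Ext^i_H(k, H) = 0`
for `i ≠ n`, and `Ext^n_H(k, H)` is a simple module with endomorphism ring `k`.
-/

set_option autoImplicit false

open CategoryTheory

namespace Pool.Agent.Results.MP_112773_al.Auslander

section defs
variable (k H : Type) [Field k] [Ring H] [HopfAlgebra k H]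

/-- The trivial left module `k = H / ker ε`: `H` acts through the counit. -/
noncomputable def trivL : ModuleCat.{0} H :=
  (ModuleCat.restrictScalars (Bialgebra.counitAlgHom k H).toRingHom).obj (ModuleCat.of k k)

/-- The counit as a ring homomorphism on the opposite ring. -/
noncomputable def counitOp : Hᵐᵒᵖ →+* k :=
  (Bialgebra.counitAlgHom k H).toRingHom.fromOpposite fun _ _ => mul_comm _ _

/-- The trivial right module `k`, as a left module over the opposite ring. -/
noncomputable def trivR : ModuleCat.{0} Hᵐᵒᵖ :=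
  (ModuleCat.restrictScalars (counitOp k H)).obj (ModuleCat.of k k)

variable {H} in
/-- The conditions (AS1) and (AS2) with the number `d`, for a trivial module `T` and a regular
module `R`: the injective dimension of `R` is `d`, `dim_k Ext^d(T, R) = 1`, and
`Ext^i(T, R) = 0` for all `i ≠ d`. -/
def IsAS {A : Type} [Ring A] [Algebra k A] (T R : ModuleCat.{0} A) (d : ℕ) : Prop :=
  injectiveDimension R = d ∧ Module.finrank k (Abelian.Ext.{0} T R d) = 1 ∧
    ∀ i : ℕ, i ≠ d → Subsingleton (Abelian.Ext.{0} T R i)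

/-- `H` is Artin-Schelter Gorenstein: (AS1), (AS2) and (AS3). -/
def IsASGorenstein : Prop :=
  (∃ d, IsAS k (trivL k H) (ModuleCat.of H H) d) ∧
    ∃ d, IsAS k (trivR k H) (ModuleCat.of Hᵐᵒᵖ H) d

/-- The action of an endomorphism `g` of `R` on `Ext^n(T, R)`.  (For `R = H` the regular left
module the endomorphisms of `R` are the right multiplications, and this is the right `H`-module
structure of `Ext^n_H(T, H)`; similarly on the other side.) -/
noncomputable def push {A : Type} [Ring A] {T R : ModuleCat.{0} A} {n : ℕ} (g : R ⟶ R)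
    (ξ : Abelian.Ext.{0} T R n) : Abelian.Ext.{0} T R n :=
  ξ.comp (Abelian.Ext.mk₀ g) (add_zero n)

/-- `Ext^n(T, R)` is nonzero and has no additive subgroups other than zero and itself which are
stable under all endomorphisms of `R`. -/
def IsSimpleExt {A : Type} [Ring A] (T R : ModuleCat.{0} A) (n : ℕ) : Prop :=
  Nontrivial (Abelian.Ext.{0} T R n) ∧
    ∀ S : AddSubgroup (Abelian.Ext.{0} T R n),
      (∀ (g : R ⟶ R), ∀ ξ ∈ S, push g ξ ∈ S) → S = ⊥ ∨ S = ⊤

/-- The additive endomorphisms of `Ext^n(T, R)` which commute with all endomorphisms of `R` are the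
multiplications by scalars in `k`. -/
def HasScalarEnd {A : Type} [Ring A] [Algebra k A] (T R : ModuleCat.{0} A) (n : ℕ) : Prop :=
  ∀ θ : Abelian.Ext.{0} T R n →+ Abelian.Ext.{0} T R n,
    (∀ (g : R ⟶ R) (ξ : Abelian.Ext.{0} T R n), θ (push g ξ) = push g (θ ξ)) →
      ∃ c : k, ∀ ξ, θ ξ = c • ξ

/-- The injective dimension of `R` is `n`, `Ext^i(T, R) = 0` for all `i ≠ n`, and `Ext^n(T, R)` is
simple over the endomorphism ring of `R`, with endomorphism ring `k`. -/
def DimSide {A : Type} [Ring A] [Algebra k A] (T R : ModuleCat.{0} A) (n : ℕ) : Prop :=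
  injectiveDimension R = n ∧ (∀ i : ℕ, i ≠ n → Subsingleton (Abelian.Ext.{0} T R i)) ∧
    IsSimpleExt T R n ∧ HasScalarEnd k T R n

/-- Multiplication by `b` from the right on the left module `H`. -/
noncomputable def rightMul (b : Hᵐᵒᵖ) : ModuleCat.of H H ⟶ ModuleCat.of H H :=
  ModuleCat.ofHom (LinearMap.toSpanSingleton H H b.unop)

/-- Multiplication by `a` from the left on the right module `H`. -/
noncomputable def leftMul (a : H) : ModuleCat.of Hᵐᵒᵖ H ⟶ ModuleCat.of Hᵐᵒᵖ H :=
  ModuleCat.ofHom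
    { toFun := fun x => a * x
      map_add' := mul_add a
      map_smul' := fun r x => (mul_assoc a x r.unop).symm }

/-- Let a ring `B` act on the module `R` through `act`.  Every `B`-module `N` with a `B`-linear
embedding `j` into `Ext^n(T, R)` satisfies `Ext^i(N, R') = 0` for all `i < n`. -/
def SubmodulesOfGrade {A B : Type} [Ring A] [Ring B] (T R : ModuleCat.{0} A)
    (act : B → (R ⟶ R)) (R' : ModuleCat.{0} B) (n : ℕ) : Prop :=
  ∀ (N : ModuleCat.{0} B) (j : N →+ Abelian.Ext.{0} T R n), Function.Injective j →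
    (∀ (b : B) (x : N), j (b • x) = push (act b) (j x)) →
    ∀ i : ℕ, i < n → Subsingleton (Abelian.Ext.{0} N R' i)

/-- The grade condition for the right `H`-module `Ext^n_H(k, H)` of left modules and for the left
`H`-module `Ext^n(k, H)` of right modules: all their submodules `N` satisfy `Ext^i(N, H) = 0` for
all `i < n`. -/
def GradeCondition (n : ℕ) : Prop :=
  SubmodulesOfGrade (trivL k H) (ModuleCat.of H H) (rightMul H) (ModuleCat.of Hᵐᵒᵖ H) n ∧
    SubmodulesOfGrade (trivR k H) (ModuleCat.of Hᵐᵒᵖ H) (leftMul H) (ModuleCat.of H H) n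

end defs

section
open Pool.Agent.Helper377_G1 Pool.Agent.Helper377_AG Pool.Agent.Helper202_BG

theorem extIso_comp (k : Type) [Field k] {A : Type} [Ring A] [Algebra k A]
    {T T' R R' : ModuleCat.{0} A} (eT : T ≅ T') (eR : R ≅ R') {n : ℕ} (g : R' ⟶ R')
    (ξ : Abelian.Ext.{0} T R n) :
    (extIso k eT eR n ξ).comp (Abelian.Ext.mk₀ g) (add_zero n) =
      extIso k eT eR n (ξ.comp (Abelian.Ext.mk₀ (eR.hom ≫ g ≫ eR.inv)) (add_zero n)) := by
  simp [extIso]

theorem side {k A B : Type} [Field k] [Ring A] [HopfAlgebra k A] [Ring B] [HopfAlgebra k B]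
    (τ : Anti A B) (hτ : ∀ (c : k) (a : A), τ.f (c • a) = c • τ.f a)
    (hA : IsNoetherianRing A) (hB : IsNoetherianRing B) (m : ℕ)
    (hX : ∀ i, i < m + 1 → Subsingleton (E A (Tr (eps k A)) A i))
    (hXn : ¬ Subsingleton (E A (Tr (eps k A)) A (m + 1)))
    (hgX : GradeGE B (EM τ (Tr (eps k A)) (m + 1)) (m + 1))
    (hgY : GradeGE A (EM τ.symm (Tr (eps k B)) (m + 1)) (m + 1)) {T R : ModuleCat.{0} A}
    (eT : TrO k A ≅ T) (eR : ModuleCat.of A A ≅ R) : DimSide k T R (m + 1) := by
  obtain ⟨h2, h3, h4⟩ := aus_side τ hτ hA hB m hX hXn hgX hgY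
  obtain ⟨h5, h6, h7⟩ := SimpleX.iso eT eR h4
  refine ⟨by rw [← injectiveDimension_eq_of_iso eR, h2], ?_, ⟨h5, h6⟩, h7⟩
  intro i hi
  have := h3 i hi
  exact (extIso k eT eR i).symm.toEquiv.subsingleton

/-- Let `H` be a left and right noetherian Hopf algebra over a field `k` and `n ≥ 1` such that
`Ext^i_H(k, H) = 0` for `i < n`, `Ext^n_H(k, H) ≠ 0`, and all submodules `N` of `Ext^n(k, H)`, on
both sides, satisfy `Ext^i(N, H) = 0` for `i < n`.  Then, on both sides, `H` has injective
dimension `n`, `Ext^i(k, H) = 0` for `i ≠ n`, and `Ext^n(k, H)` is a simple `H`-module with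
endomorphism ring `k`.  Moreover `H` is Artin-Schelter Gorenstein if and only if `Ext^n_H(k, H)` is
finite-dimensional. -/
theorem result (k : Type) [Field k] (H : Type) [Ring H] [HopfAlgebra k H]
    [IsNoetherianRing H] [IsNoetherianRing Hᵐᵒᵖ] (n : ℕ) (hn : 1 ≤ n)
    (h₀ : ∀ i : ℕ, i < n → Subsingleton (Abelian.Ext.{0} (trivL k H) (ModuleCat.of H H) i))
    (h₁ : Nontrivial (Abelian.Ext.{0} (trivL k H) (ModuleCat.of H H) n))
    (hG : GradeCondition k H n) :
    DimSide k (trivL k H) (ModuleCat.of H H) n ∧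
    DimSide k (trivR k H) (ModuleCat.of Hᵐᵒᵖ H) n ∧
    (IsASGorenstein k H ↔
      FiniteDimensional k (Abelian.Ext.{0} (trivL k H) (ModuleCat.of H H) n)) := by
  obtain ⟨m, rfl⟩ : ∃ m, n = m + 1 := ⟨n - 1, by omega⟩
  let _ : HopfAlgebra k Hᵐᵒᵖ := opCop k H
  have hτ : ∀ (c : k) (a : H), (Criterion.opAnti H).f (c • a) = c • (Criterion.opAnti H).f a :=
    fun _ _ => rfl
  have hX : ∀ i, i < m + 1 → Subsingleton (E H (Tr (eps k H)) H i) := h₀
  have hXn : ¬ Subsingleton (E H (Tr (eps k H)) H (m + 1)) := not_subsingleton_iff_nontrivial.2 h₁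
  have hY : ∀ i, i < m + 1 → Subsingleton (E Hᵐᵒᵖ (Tr (eps k Hᵐᵒᵖ)) Hᵐᵒᵖ i) := fun i hi =>
    (taskS k H Hᵐᵒᵖ (Criterion.opAnti H) hτ inferInstance inferInstance i).1 (hX i hi)
  have hYn : ¬ Subsingleton (E Hᵐᵒᵖ (Tr (eps k Hᵐᵒᵖ)) Hᵐᵒᵖ (m + 1)) := fun h =>
    hXn ((taskS k H Hᵐᵒᵖ (Criterion.opAnti H) hτ inferInstance inferInstance (m + 1)).2 h)
  have e' : TrO k H ≅ trivL k H := Iso.refl _
  have e : TrO k Hᵐᵒᵖ ≅ trivR k H := Iso.refl _
  have hgX : GradeGE Hᵐᵒᵖ (EM (Criterion.opAnti H) (Tr (eps k H)) (m + 1)) (m + 1) := by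
    intro N i hi
    have h1 := hG.1 (ModuleCat.of Hᵐᵒᵖ N)
      { toFun := fun x => (ofEM (Criterion.opAnti H) (Tr (eps k H)) (m + 1) x.1)
        map_zero' := rfl
        map_add' := fun x y => rfl } (fun x y h => Subtype.ext h) (fun a x => rfl) i hi
    exact (extIso k (Iso.refl (ModuleCat.of Hᵐᵒᵖ N)) (Criterion.regIso H) i).toEquiv.subsingleton
  have hgY : GradeGE H (EM (Criterion.opAnti H).symm (Tr (eps k Hᵐᵒᵖ)) (m + 1)) (m + 1) := by
    intro N i hi
    refine hG.2 (ModuleCat.of H N)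
      { toFun := fun x => extIso k e (Criterion.regIso H) (m + 1)
          (ofEM (Criterion.opAnti H).symm (Tr (eps k Hᵐᵒᵖ)) (m + 1) x.1)
        map_zero' := map_zero _
        map_add' := fun x y => map_add _ _ _ } ?_ ?_ i hi
    · intro x y h
      exact Subtype.ext ((extIso k e (Criterion.regIso H) (m + 1)).injective h)
    · intro a x
      change extIso k e (Criterion.regIso H) (m + 1)
        ((ofEM (Criterion.opAnti H).symm (Tr (eps k Hᵐᵒᵖ)) (m + 1) x.1).comp
          (Abelian.Ext.mk₀ (ModuleCat.ofHom (rm (MulOpposite.op a)))) (add_zero (m + 1))) =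
        (extIso k e (Criterion.regIso H) (m + 1)
          (ofEM (Criterion.opAnti H).symm (Tr (eps k Hᵐᵒᵖ)) (m + 1) x.1)).comp
            (Abelian.Ext.mk₀ (leftMul H a)) (add_zero (m + 1))
      have h2 : ModuleCat.ofHom (rm (MulOpposite.op a)) =
          (Criterion.regIso H).hom ≫ leftMul H a ≫ (Criterion.regIso H).inv := by
        apply ModuleCat.hom_ext
        ext
        rfl
      rw [h2]
      exact (extIso_comp k e (Criterion.regIso H) (leftMul H a) _).symm
  have hLs : DimSide k (trivL k H) (ModuleCat.of H H) (m + 1) :=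
    side (Criterion.opAnti H) hτ inferInstance inferInstance m hX hXn hgX hgY e' (Iso.refl _)
  have hRs : DimSide k (trivR k H) (ModuleCat.of Hᵐᵒᵖ H) (m + 1) :=
    side (Criterion.opAnti H).symm (anti_symm_smul (Criterion.opAnti H) hτ) inferInstance
      inferInstance m hY hYn hgY hgX e (Criterion.regIso H)
  refine ⟨hLs, hRs, ?_⟩
  have h3 := (Criterion.result k H (m + 1)).out 4 0
  constructor
  · rintro ⟨⟨d, hd⟩, -⟩
    have hdn : d = m + 1 := by
      have := hd.1.symm.trans hLs.1
      exact_mod_cast this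
    rw [hdn] at hd
    exact Module.finite_of_finrank_pos (by rw [hd.2.1]; exact Nat.one_pos)
  · intro hfin
    have hnt : Nontrivial (Abelian.Ext.{0} (Criterion.trivL k H) (ModuleCat.of H H) (m + 1)) := h₁
    have hf : FiniteDimensional k
      (Abelian.Ext.{0} (Criterion.trivL k H) (ModuleCat.of H H) (m + 1)) := hfin
    refine (h3.1 ⟨fun i hi => hLs.2.1 i hi.ne, ⊤, ?_, ?_, fun _ _ _ => Submodule.mem_top⟩).1
    · exact top_ne_bot
    · infer_instance

end

end Pool.Agent.Results.MP_112773_al.Auslander
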