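import Pool.Agent.Helper377_G1.Final
import Pool.Agent.Helper377_G1.TaskArt
import Pool.Agent.Helper377_G1.TaskDen
import Pool.Agent.Results.MP_112773_al.Criterion

/-!
Semiprime noetherian Hopf algebras with `Ext^1_H(k, H) ≠ 0` have injective dimension one on both
sides, `Ext^1_H(k, H)` is a simple module whose endomorphisms are scalars, and either `H` is
Artin-Schelter Gorenstein or this module is infinite-dimensional with annihilator a minimal prime
ideal of `H`.
-/

set_option autoImplicit false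

open CategoryTheory

namespace Pool.Agent.Results.MP_112773_al.GradeOne

section defs
variable (k H : Type) [Field k] [Ring H]

/-- `A` is a semiprime ring: `a A a = 0` implies `a = 0`. -/
def IsSemiprimeRing (A : Type) [Ring A] : Prop := ∀ a : A, (∀ r, a * r * a = 0) → a = 0

/-- prime two-sided ideals -/
def IsPrimeIdeal {A : Type} [Ring A] (P : Ideal A) : Prop :=
  P.IsTwoSided ∧ P ≠ ⊤ ∧ ∀ a b : A, (∀ r, a * r * b ∈ P) → a ∈ P ∨ b ∈ P

/-- minimal prime ideals -/
def IsMinimalPrime {A : Type} [Ring A] (P : Ideal A) : Prop :=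
  IsPrimeIdeal P ∧ ∀ Q : Ideal A, IsPrimeIdeal Q → Q ≤ P → Q = P

variable [HopfAlgebra k H]

/-- The trivial left module `k = H / ker ε`: `H` acts through the counit. -/
noncomputable def trivL : ModuleCat.{0} H :=
  (ModuleCat.restrictScalars (Bialgebra.counitAlgHom k H).toRingHom).obj (ModuleCat.of k k)

/-- The counit as a ring homomorphism on the opposite ring. -/
noncomputable def counitOp : Hᵐᵒᵖ →+* k :=
  (Bialgebra.counitAlgHom k H).toRingHom.fromOpposite fun _ _ => mul_comm _ _

/-- The trivial right module `k`, as a left module over the opposite ring. -/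
noncomputable def trivR : ModuleCat.{0} Hᵐᵒᵖ :=
  (ModuleCat.restrictScalars (counitOp k H)).obj (ModuleCat.of k k)

variable {H} in
/-- The conditions (AS1) and (AS2) with the number `d`, for a trivial module `T` and a regular
module `R`: the injective dimension of `R` is `d`, `dim_k Ext^d(T, R) = 1`, and
`Ext^i(T, R) = 0` for all `i ≠ d`. -/
def IsAS {A : Type} [Ring A] [Algebra k A] (T R : ModuleCat.{0} A) (d : ℕ) : Prop :=
  injectiveDimension R = d ∧ Module.finrank k (Abelian.Ext.{0} T R d) = 1 ∧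
    ∀ i : ℕ, i ≠ d → Subsingleton (Abelian.Ext.{0} T R i)

/-- `H` is Artin-Schelter Gorenstein: (AS1), (AS2) and (AS3). -/
def IsASGorenstein : Prop :=
  (∃ d, IsAS k (trivL k H) (ModuleCat.of H H) d) ∧
    ∃ d, IsAS k (trivR k H) (ModuleCat.of Hᵐᵒᵖ H) d

variable {H} in
/-- The injective dimension of `R` is one, `Ext^i(T, R) = 0` for all `i ≠ 1`, and `Ext^1(T, R)` is
nonzero, has no additive subgroups other than zero and itself which are stable under all
endomorphisms of `R`, and its additive endomorphisms which commute with all endomorphisms of `R`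
are multiplications by scalars in `k`.  (For `R = H` the regular left module the endomorphisms of
`R` are the right multiplications, so `Ext^1_H(k, H)` is a simple right `H`-module with
endomorphism ring `k`; similarly on the other side.) -/
def DimOneSide {A : Type} [Ring A] [Algebra k A] (T R : ModuleCat.{0} A) : Prop :=
  injectiveDimension R = 1 ∧ (∀ i : ℕ, i ≠ 1 → Subsingleton (Abelian.Ext.{0} T R i)) ∧
    Nontrivial (Abelian.Ext.{0} T R 1) ∧
    (∀ S : AddSubgroup (Abelian.Ext.{0} T R 1),
      (∀ (g : R ⟶ R) (ξ : Abelian.Ext.{0} T R 1), ξ ∈ S →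
        ξ.comp (Abelian.Ext.mk₀ g) (add_zero 1) ∈ S) → S = ⊥ ∨ S = ⊤) ∧
    ∀ θ : Abelian.Ext.{0} T R 1 →+ Abelian.Ext.{0} T R 1,
      (∀ (g : R ⟶ R) (ξ : Abelian.Ext.{0} T R 1),
        θ (ξ.comp (Abelian.Ext.mk₀ g) (add_zero 1)) =
          (θ ξ).comp (Abelian.Ext.mk₀ g) (add_zero 1)) → ∃ c : k, ∀ ξ, θ ξ = c • ξ

/-- `P` is the annihilator in `H` of the right `H`-module `Ext^1_H(k, H)`: the elements `a` such
that the right multiplication `x ↦ x * a` of the left module `H` induces zero on
`Ext^1_H(k, H)`. -/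
def IsAnnihilator (P : Ideal H) : Prop :=
  ∀ a : H, a ∈ P ↔ ∀ ξ : Abelian.Ext.{0} (trivL k H) (ModuleCat.of H H) 1,
    ξ.comp (Abelian.Ext.mk₀ (ModuleCat.ofHom (LinearMap.toSpanSingleton H H a)))
      (add_zero 1) = 0

end defs

section
variable (k H : Type) [Field k] [Ring H] [HopfAlgebra k H]

open Pool.Agent.Helper377_G1 Pool.Agent.Helper377_AG Pool.Agent.Helper202_BG

theorem side {A B : Type} [Ring A] [HopfAlgebra k A] [Ring B] [HopfAlgebra k B]
    (τ : Anti A B) (hτ : ∀ (c : k) (a : A), τ.f (c • a) = c • τ.f a)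
    (hA : IsNoetherianRing A) (hB : IsNoetherianRing B) (hs : SemiprimeR A)
    (h1 : ¬ Subsingleton (E A (Tr (eps k A)) A 1)) {T R : ModuleCat.{0} A} (eT : TrO k A ≅ T)
    (eR : ModuleCat.of A A ≅ R) : DimOneSide k T R := by
  obtain ⟨h2, h3, h4, -⟩ := dim_one_side τ hτ taskArt taskDen hA hB hs h1
  obtain ⟨h5, h6, h7⟩ := SimpleX.iso eT eR h4
  refine ⟨by rw [← injectiveDimension_eq_of_iso eR, h2], ?_, h5, h6, h7⟩
  intro i hi
  have := h3 i hi
  exact (extIso k eT eR i).symm.toEquiv.subsingleton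

/-- Let `H` be a left and right noetherian semiprime Hopf algebra over a field `k` with
`Ext^1_H(k, H) ≠ 0` for left modules.  Then, on both sides, `H` has injective dimension one,
`Ext^i_H(k, H) = 0` for `i ≠ 1`, and `Ext^1_H(k, H)` is a simple `H`-module with endomorphism ring
`k`.  Moreover `H` is Artin-Schelter Gorenstein or the right module `Ext^1_H(k, H)` is
infinite-dimensional and its annihilator is a minimal prime ideal of `H`. -/
theorem result (k : Type) [Field k] (H : Type) [Ring H] [HopfAlgebra k H]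
    [IsNoetherianRing H] [IsNoetherianRing Hᵐᵒᵖ] (hs : IsSemiprimeRing H)
    (h : Nontrivial (Abelian.Ext.{0} (trivL k H) (ModuleCat.of H H) 1)) :
    DimOneSide k (trivL k H) (ModuleCat.of H H) ∧
    DimOneSide k (trivR k H) (ModuleCat.of Hᵐᵒᵖ H) ∧
    (IsASGorenstein k H ∨
      ¬ FiniteDimensional k (Abelian.Ext.{0} (trivL k H) (ModuleCat.of H H) 1) ∧
        ∃ P : Ideal H, IsAnnihilator k H P ∧ IsMinimalPrime P) := by
  let _ : HopfAlgebra k Hᵐᵒᵖ := opCop k H
  have hτ : ∀ (c : k) (a : H), (Criterion.opAnti H).f (c • a) = c • (Criterion.opAnti H).f a :=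
    fun _ _ => rfl
  have h1 : ¬ Subsingleton (E H (Tr (eps k H)) H 1) := not_subsingleton_iff_nontrivial.2 h
  have h2 : ¬ Subsingleton (E Hᵐᵒᵖ (Tr (eps k Hᵐᵒᵖ)) Hᵐᵒᵖ 1) := fun h3 =>
    h1 ((taskS k H Hᵐᵒᵖ (Criterion.opAnti H) hτ inferInstance inferInstance 1).2 h3)
  have e' : TrO k H ≅ trivL k H := Iso.refl _
  have e : TrO k Hᵐᵒᵖ ≅ trivR k H := Iso.refl _
  have hL : DimOneSide k (trivL k H) (ModuleCat.of H H) :=
    side k (Criterion.opAnti H) hτ inferInstance inferInstance hs h1 e' (Iso.refl _)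
  have hR : DimOneSide k (trivR k H) (ModuleCat.of Hᵐᵒᵖ H) :=
    side k (Criterion.opAnti H).symm (anti_symm_smul (Criterion.opAnti H) hτ) inferInstance
      inferInstance (semiprime_anti (Criterion.opAnti H) hs) h2 e (Criterion.regIso H)
  refine ⟨hL, hR, ?_⟩
  by_cases hfin : FiniteDimensional k (Abelian.Ext.{0} (trivL k H) (ModuleCat.of H H) 1)
  · left
    have h3 := (Criterion.result k H 1).out 4 0
    have hnt : Nontrivial (Abelian.Ext.{0} (Criterion.trivL k H) (ModuleCat.of H H) 1) := h
    have hf : FiniteDimensional k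
      (Abelian.Ext.{0} (Criterion.trivL k H) (ModuleCat.of H H) 1) := hfin
    refine (h3.1 ⟨fun i hi => hL.2.1 i hi.ne, ⊤, ?_, ?_, fun _ _ _ => Submodule.mem_top⟩).1
    · exact top_ne_bot
    · infer_instance
  · right
    refine ⟨hfin, ?_⟩
    obtain ⟨-, -, -, h4⟩ :=
      dim_one_side (Criterion.opAnti H) hτ taskArt taskDen inferInstance inferInstance hs h1
    rcases h4 with h4 | ⟨P, hP, hmin, hann⟩
    · exact absurd h4 hfin
    · exact ⟨P, hann, hP, hmin⟩

end

end Pool.Agent.Results.MP_112773_al.GradeOne
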