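import Pool.Agent.Helper377_NS.Main
import Pool.Agent.Helper377_NS.Task3
import Pool.Agent.Helper377_NH.Main
import Pool.Agent.Helper377_NH.Task0
import Pool.Agent.Helper377_NH.Task1
import Pool.Agent.Helper377_NH.Task2
import Pool.Agent.Helper377_NH.Task3
import Pool.Agent.Helper377_NH.Task4
import Pool.Agent.Helper377_NH.Task5a
import Pool.Agent.Helper377_NH.Task5
import Pool.Agent.Helper377_NH.Sep
import Pool.Agent.Helper202_BG.Y
import Pool.Agent.Results.MP_112773_al.Criterion

/-!
A left and right noetherian Hopf algebra which satisfies a polynomial identity, or in which the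
prime ideals of finite codimension are normally separated from the prime ideals below them, is
Artin-Schelter Gorenstein.  No finite generation and no finiteness of homological or Krull
dimensions is assumed.
-/

set_option autoImplicit false

open CategoryTheory

namespace Pool.Agent.Results.MP_112773_al.NormalSep

section defs
variable (k H : Type) [Field k] [Ring H]

/-- prime two-sided ideals -/
def IsPrimeIdeal {A : Type} [Ring A] (P : Ideal A) : Prop :=
  P.IsTwoSided ∧ P ≠ ⊤ ∧ ∀ a b : A, (∀ r, a * r * b ∈ P) → a ∈ P ∨ b ∈ P

/-- For all prime ideals `P ⊊ M` with `M` of finite codimension there is an element `z` of `M`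
outside `P` which is normal modulo `P`, that is, `z H + P` and `H z + P` are equal. -/
def NormallySeparated [Algebra k H] : Prop :=
  ∀ P M : Ideal H, IsPrimeIdeal P → IsPrimeIdeal M → P < M → Module.Finite k (H ⧸ M) →
    ∃ z ∈ M, z ∉ P ∧ (∀ r, ∃ s, z * r - s * z ∈ P) ∧ ∀ r, ∃ s, r * z - z * s ∈ P

/-- `H` satisfies a polynomial identity: a nonzero noncommutative polynomial with coefficients in
`k` vanishes under all substitutions of elements of `H`. -/
def IsPI [Algebra k H] : Prop :=
  ∃ (m : ℕ) (f : FreeAlgebra k (Fin m)), f ≠ 0 ∧ ∀ a : Fin m → H, FreeAlgebra.lift k a f = 0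

variable [HopfAlgebra k H]

/-- The trivial left module `k = H / ker ε`: `H` acts through the counit. -/
noncomputable def trivL : ModuleCat.{0} H :=
  (ModuleCat.restrictScalars (Bialgebra.counitAlgHom k H).toRingHom).obj (ModuleCat.of k k)

/-- The counit as a ring homomorphism on the opposite ring. -/
noncomputable def counitOp : Hᵐᵒᵖ →+* k :=
  (Bialgebra.counitAlgHom k H).toRingHom.fromOpposite fun _ _ => mul_comm _ _

/-- The trivial right module `k`, as a left module over the opposite ring. -/
noncomputable def trivR : ModuleCat.{0} Hᵐᵒᵖ :=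
  (ModuleCat.restrictScalars (counitOp k H)).obj (ModuleCat.of k k)

variable {H} in
/-- The conditions (AS1) and (AS2) with the number `d`, for a trivial module `T` and a regular
module `R`: the injective dimension of `R` is `d`, `dim_k Ext^d(T, R) = 1`, and
`Ext^i(T, R) = 0` for all `i ≠ d`. -/
def IsAS {A : Type} [Ring A] [Algebra k A] (T R : ModuleCat.{0} A) (d : ℕ) : Prop :=
  injectiveDimension R = d ∧ Module.finrank k (Abelian.Ext.{0} T R d) = 1 ∧
    ∀ i : ℕ, i ≠ d → Subsingleton (Abelian.Ext.{0} T R i)

/-- `H` is Artin-Schelter Gorenstein: (AS1), (AS2) and (AS3). -/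
def IsASGorenstein : Prop :=
  (∃ d, IsAS k (trivL k H) (ModuleCat.of H H) d) ∧
    ∃ d, IsAS k (trivR k H) (ModuleCat.of Hᵐᵒᵖ H) d

end defs

open Pool.Agent.Helper377_NS Pool.Agent.Helper377_AG Pool.Agent.Helper202_BG
open Pool.Agent.Helper377_NH (bddChains_of taskL0 taskLm taskL1 taskLz taskLt taskL2 taskL3 taskL4
  taskL5a taskL5 normSep_of)

/-- Every left and right noetherian Hopf algebra over a field which satisfies a polynomial
identity, or is normally separated in the above sense, is Artin-Schelter Gorenstein. -/
theorem result (k : Type) [Field k] (H : Type) [Ring H] [HopfAlgebra k H]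
    [IsNoetherianRing H] [IsNoetherianRing Hᵐᵒᵖ] (h : IsPI k H ∨ NormallySeparated k H) :
    IsASGorenstein k H := by
  have hN : NormSep k H := by
    rcases h with h | h
    · obtain ⟨d, hd⟩ := taskY3 k H h
      exact task4 k H d hd
    · exact normSep_of h
  have l2 := taskL2 taskL0 taskL1 taskLz
  have hB : BddChains k H := bddChains_of taskL0
    (taskL4 (taskL3 taskL0 taskL1 taskLz taskLt l2))
    (taskL5 taskL0 taskLm (taskL5a taskL1 taskLz l2)) k H hN
  have hE := exists_ext k H hN (task3 k H hN) hB
  obtain ⟨n, hn⟩ := exists_crit k H hN hE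
  have h3 := (Criterion.result k H n).out 4 0
  exact (h3.1 hn).1

end Pool.Agent.Results.MP_112773_al.NormalSep
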